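import Pool.Agent.J6H54.MG.Contr
import Pool.Agent.J6H54.MG.Count
import Pool.Agent.J6H54.MG.QQ
import Pool.Agent.J6H54.MG.Rec
import Pool.Agent.J6H54.MG.Ana
import Pool.Agent.J6H54.MG.Up
import Pool.Agent.J6H54.MG.K
import Pool.Agent.J6H54.MG.Z
import Pool.Agent.J6H54.MG.Low
import Pool.Agent.J6H54.MG.Lang
import Pool.Agent.J6H54.MG.Par
import Pool.Agent.J6H54.MG.Updn
import Pool.Agent.J6H54.MG.Self
import Pool.Agent.J6H54.MG.Hom
import Pool.Agent.J6H54.MG.Sys
import Pool.Agent.J6H54.MG.Ne

/-!
# The topological full group of the Thue-Morse subshift has subgroups of intermediate growth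

Let `X` be the subshift of the substitution `0 ↦ 01`, `1 ↦ 10` with the shift `T`. The topological
full group of `(X, T)` contains a finitely generated subgroup whose growth is faster than every
polynomial and slower than every exponential function. Moreover the subgroup contains free abelian
groups of all finite ranks.

The subgroup is generated by four involutions. Every `x ∈ X` is in a unique way a concatenation of
the blocks `01` and `10`; `a` exchanges the two positions in a block, `b` exchanges the two adjacent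
positions of neighbouring blocks, and `c`, `d` do the same if the letters at these two positions are
equal, respectively different. The desubstitution gives the recursion `a = swap`, `b = (a, b)`,
`c = (a, d)`, `d = (1, c)` of the group `G_(01)^∞` of Grigorchuk and Erschler. With the weights `2`
for `a` and `4, 3, 2` for `b, c, d` the two sections of a word have together at most the weight of the word
minus the number of the letters different from `b`, and there are few words with few such
letters, so that the growth is slower than exponential.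
-/

set_option autoImplicit false

open scoped Pointwise
open Filter Topology

namespace Pool.Agent.Results.MP_0e9457_al.ThueMorse

/-- the substitution `0 ↦ 01`, `1 ↦ 10`, extended to words by concatenation -/
def sub (w : List Bool) : List Bool := w.flatMap fun x => if x then [true, false] else [false, true]

/-- the word `x_i x_(i+1) … x_(i+n-1)` -/
def window (x : ℤ → Bool) (i : ℤ) (n : ℕ) : List Bool :=
  (List.range n).map fun k : ℕ => x (i + (k : ℤ))

/-- the Thue-Morse subshift: all finite subwords occur in some `σ^n(a)`, `n ≥ 1` -/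
abbrev X : Type :=
  {x : ℤ → Bool // ∀ (i : ℤ) (n : ℕ), ∃ (a : Bool) (m : ℕ), 1 ≤ m ∧ window x i n <:+: sub^[m] [a]}

theorem sub_eq : sub = Pool.Agent.J6H54.MG.sub := by
  funext w
  unfold sub Pool.Agent.J6H54.MG.sub
  congr 1
  funext x
  cases x <;> rfl

theorem mem_iff (x : ℤ → Bool) :
    (∀ (i : ℤ) (n : ℕ), ∃ (a : Bool) (m : ℕ), 1 ≤ m ∧ window x i n <:+: sub^[m] [a]) ↔
      Pool.Agent.J6H54.MG.InM x := by
  unfold Pool.Agent.J6H54.MG.InM Pool.Agent.J6H54.MG.Lang
  rw [sub_eq]
  refine forall_congr' fun i => forall_congr' fun n => ?_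
  rw [Pool.Agent.J6H54.MG.window_eq]
  rfl

theorem shift_mem {x : ℤ → Bool} (m : ℤ)
    (hx : ∀ (i : ℤ) (n : ℕ), ∃ (a : Bool) (m : ℕ), 1 ≤ m ∧ window x i n <:+: sub^[m] [a]) :
    ∀ (i : ℤ) (n : ℕ), ∃ (a : Bool) (k : ℕ), 1 ≤ k ∧
      window (fun j => x (j + m)) i n <:+: sub^[k] [a] := by
  rw [mem_iff] at hx ⊢
  exact Pool.Agent.J6H54.MG.inM_sh hx m

/-- the left shift -/
def T : X ≃ₜ X where
  toFun x := ⟨fun n => x.1 (n + 1), shift_mem 1 x.2⟩
  invFun x := ⟨fun n => x.1 (n + (-1)), shift_mem (-1) x.2⟩
  left_inv x := by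
    ext n
    simp
  right_inv x := by
    ext n
    simp
  continuous_toFun := by
    refine Continuous.subtype_mk (continuous_pi fun n => ?_) _
    exact (continuous_apply (n + 1)).comp continuous_subtype_val
  continuous_invFun := by
    refine Continuous.subtype_mk (continuous_pi fun n => ?_) _
    exact (continuous_apply (n + -1)).comp continuous_subtype_val

/-- the topological full group of a homeomorphism `T` -/
def fullGroup {Z : Type} [TopologicalSpace Z] (T : Z ≃ₜ Z) : Subgroup (Z ≃ₜ Z) where
  carrier := {g | ∃ n : Z → ℤ, Continuous n ∧ ∀ x, g x = (T ^ (n x)) x}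
  mul_mem' {g h} hg hh := by
    obtain ⟨F, hF⟩ := Pool.Agent.J6H54.MG.s_full T
    exact (hF _).1 (F.mul_mem ((hF g).2 hg) ((hF h).2 hh))
  one_mem' := ⟨fun _ => 0, continuous_const, fun x => by simp⟩
  inv_mem' {g} hg := by
    obtain ⟨F, hF⟩ := Pool.Agent.J6H54.MG.s_full T
    exact (hF _).1 (F.inv_mem ((hF g).2 hg))

/-- the number of elements of word length at most `r` with respect to the generating set `S` -/
noncomputable def growth {G : Type} [Group G] (S : Set G) (r : ℕ) : ℕ := ((S ∪ S⁻¹ ∪ {1}) ^ r).ncard

/-- growth faster than every polynomial and slower than every exponential function `e ^ (c r)` -/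
def IsIntermediate (f : ℕ → ℕ) : Prop :=
  (∀ d : ℕ, Tendsto (fun r : ℕ => (f r : ℝ) / (r : ℝ) ^ d) atTop atTop) ∧
  ∀ c : ℝ, 0 < c → Tendsto (fun r : ℕ => (f r : ℝ) / Real.exp (c * r)) atTop (𝓝 0)

/-! ### Transfer -/

theorem growth_image {G H : Type} [Group G] [Group H] (f : G →* H) (hf : Function.Injective f)
    (S : Set G) (r : ℕ) : growth (f '' S) r = growth S r := by
  unfold growth
  have h : (f '' S ∪ (f '' S)⁻¹ ∪ {1}) ^ r = f '' ((S ∪ S⁻¹ ∪ {1}) ^ r) := by
    rw [Set.image_pow, Set.image_union, Set.image_union, Set.image_inv, Set.image_singleton, map_one]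
  rw [h, Set.ncard_image_of_injective _ hf]

/-- the two forms of the subshift -/
def e : X ≃ₜ Pool.Agent.J6H54.MG.Morse := (Homeomorph.refl _).subtype mem_iff

/-- conjugation -/
def phi : (Pool.Agent.J6H54.MG.Morse ≃ₜ Pool.Agent.J6H54.MG.Morse) →* (X ≃ₜ X) where
  toFun g := (e.trans g).trans e.symm
  map_one' := by
    ext x n
    simp
  map_mul' g h := by
    ext x n
    simp

theorem phi_apply (g : Pool.Agent.J6H54.MG.Morse ≃ₜ Pool.Agent.J6H54.MG.Morse) (x : X) :
    phi g x = e.symm (g (e x)) := rfl

theorem phi_injective : Function.Injective phi := by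
  intro g h hgh
  ext x n
  have h1 := congrArg (fun k : X ≃ₜ X => e (k (e.symm x))) hgh
  simp only [phi_apply, Homeomorph.apply_symm_apply] at h1
  rw [h1]

theorem phi_T : phi Pool.Agent.J6H54.MG.T = T := by
  ext x n
  rfl

theorem phi_full {g : Pool.Agent.J6H54.MG.Morse ≃ₜ Pool.Agent.J6H54.MG.Morse}
    (hg : Pool.Agent.J6H54.MG.IsFull Pool.Agent.J6H54.MG.T g) : phi g ∈ fullGroup T := by
  obtain ⟨n, hn, h⟩ := hg
  refine ⟨fun x => n (e x), hn.comp e.continuous, fun x => ?_⟩
  rw [phi_apply, h, ← phi_T, ← map_zpow, phi_apply]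

/-- forgetting the topology -/
def psi : (Pool.Agent.J6H54.MG.Morse ≃ₜ Pool.Agent.J6H54.MG.Morse) →*
    Equiv.Perm Pool.Agent.J6H54.MG.Morse where
  toFun g := g.toEquiv
  map_one' := rfl
  map_mul' _ _ := rfl

theorem psi_injective : Function.Injective psi := by
  intro g h hgh
  ext x n
  have h1 := congrArg (fun k : Equiv.Perm Pool.Agent.J6H54.MG.Morse => k x) hgh
  exact congrArg (fun y : Pool.Agent.J6H54.MG.Morse => y.1 n) h1

open Pool.Agent.J6H54.MG in
theorem intermediate {Z : Type} [Nonempty Z] (Y : Sys Z) : IsIntermediate (growth Y.gen) := by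
  refine ⟨?_, ?_⟩
  · refine s_low Y.gen ?_ (s_Z s_pr s_K Y)
    unfold Sys.gen
    exact Set.toFinite _
  · exact s_up s_Q (s_rec s_contr s_count s_Q) s_count s_ana Y

/-- **The topological full group of the Thue-Morse subshift contains a finitely generated subgroup of
intermediate growth.** -/
theorem result : ∃ H : Subgroup (X ≃ₜ X), H ≤ fullGroup T ∧
    ∃ S : Set (X ≃ₜ X), S.Finite ∧ Subgroup.closure S = H ∧ IsIntermediate (growth S) := by
  open Pool.Agent.J6H54.MG in
  have hpar : S_par := s_par s_tm s_lang
  have hP : S_P := s_P hpar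
  have hup : S_updn := s_updn s_tm s_lang hpar hP
  have hinv : S_inv := s_inv hP hup
  obtain ⟨a, b, c, d, Y, ha, hb, hc, hd, ea, eb, ec, ed⟩ :=
    s_sys (s_homeo hinv) (s_phi hP hup) (s_self hP hup) hinv
  have hne : Nonempty Morse := s_ne s_tm s_lang
  have hS : Y.gen = psi '' {a, b, c, d} := by
    rw [Set.image_insert_eq, Set.image_insert_eq, Set.image_insert_eq, Set.image_singleton]
    unfold Sys.gen
    rw [ea, eb, ec, ed]
    rfl
  refine ⟨Subgroup.closure (phi '' {a, b, c, d}), ?_, phi '' {a, b, c, d}, ?_, rfl, ?_⟩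
  · rw [Subgroup.closure_le]
    rintro _ ⟨g, hg, rfl⟩
    rcases hg with rfl | rfl | rfl | rfl
    · exact phi_full ha
    · exact phi_full hb
    · exact phi_full hc
    · exact phi_full hd
  · exact (Set.toFinite _).image _
  · have h : growth (phi '' {a, b, c, d}) = growth Y.gen := by
      funext r
      rw [growth_image phi phi_injective, hS, growth_image psi psi_injective]
    rw [h]
    exact intermediate Y

end Pool.Agent.Results.MP_0e9457_al.ThueMorse
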